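import Pool.Agent.Q39.MD17.Fin
import Pool.Agent.Q39.MD17.All

/-!
# MP_a7d87e_pr: the fixation probability of majority dynamics is not continuous for `d = 17`

`V 17`: vertices of the 17-regular tree (words over 17 letters without two equal consecutive
letters), the neighbours of `x` are the 17 words `R i x`; `Om 17 Lab`, `PP 17 law`: independent
labels (a uniform initial label and a Poisson process of rate one of rings) at the vertices;
`IsSol p ω v`: `v x t` (the spin at `x` just before `t` is `+`) obeys the rules of the dynamics;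
`theta v p`: the probability that the spin of the root is finally `+`.
-/

namespace Pool.Agent.Results.MP_a7d87e_pr.JumpOnSeventeenTree

open MeasureTheory ProbabilityTheory Filter Topology
open Pool.Agent.Q39.MD17

theorem result :
    (∀ᵐ ω ∂PP 17 law, GoodW ω) ∧
    (∀ (p : ℝ) (ω : Om 17 Lab) (v v' : V 17 → ℝ → Prop), GoodW ω → IsSol p ω v → IsSol p ω v' →
      ∀ x t, v x t ↔ v' x t) ∧
    (∃ v, Dynamics v) ∧
    ∀ v, Dynamics v →
      (∀ p, ∀ᵐ ω ∂PP 17 law, ∀ x : V 17, ∃ T : ℝ, ∀ t, T ≤ t → (v p ω x t ↔ v p ω x T)) ∧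
      (∀ p, theta v p = 0 ∨ 1 / 9 ≤ theta v p) ∧
      theta v 0 = 0 ∧ theta v 1 = 1 ∧ ¬ ContinuousOn (theta v) (Set.Icc 0 1) :=
  ⟨goodAE, unique, exist, fun v hv => ⟨fun p => fix p (v p) (hv.1 p) (hv.2 p),
    fun p => gap gapT plusMeas nine hv p, not_cont gapT plusMeas nine ends hv⟩⟩

end Pool.Agent.Results.MP_a7d87e_pr.JumpOnSeventeenTree
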